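import Pool.Agent.H15.F8.Targets

/-!
# Project MP_f8d35d_nt, modules L5 and L6: the Kummer generator of the `eta`-part
-/

namespace Pool.Agent.H60.F8

open _root_.F8

section ultra

variable {p : ℕ} [Fact p.Prime]

lemma um (a b : Om p) : ‖a + b‖ ≤ max ‖a‖ ‖b‖ := IsUltrametricDist.norm_add_le_max a b

lemma um_eq {a b : Om p} (h : ‖a‖ < ‖b‖) : ‖a + b‖ = ‖b‖ := by
  rw [IsUltrametricDist.norm_add_eq_max_of_norm_ne_norm h.ne, max_eq_right h.le]

lemma um_eq' {a b : Om p} (h : ‖b‖ < ‖a‖) : ‖a + b‖ = ‖a‖ := by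
  rw [add_comm]; exact um_eq h

lemma norm_int_eq (n : ℤ) : ‖(n : Om p)‖ = ‖(n : ℚ_[p])‖ := by
  have h := PadicAlgCl.norm_extends p (n : ℚ_[p])
  rw [← h, map_intCast]

lemma norm_nat_le (n : ℕ) : ‖(n : Om p)‖ ≤ 1 := IsUltrametricDist.norm_natCast_le_one (Om p) n

lemma norm_two_le : ‖(2 : Om p)‖ ≤ 1 := by
  have := norm_nat_le (p := p) 2
  simpa using this

end ultra

/-- the common part of L5 and L6 -/
theorem kummer_core (heta : EtaStmt) (htr : TransStmt) {p : ℕ} [Fact p.Prime]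
    (F : IntermediateField ℚ_[p] (Om p)) (w : Om p) (hw : w ∈ F) (hw2 : w ^ 2 + w + 1 = 0)
    (δ : Om p) (R : Pt (Om p)) 
    (h : ∀ g : Gp p, (∀ a ∈ F, g a = a) → (3 : ℕ) • (pm (g : Om p →+* Om p) R - R) = 0 ∧
      g δ = eta (pm (g : Om p →+* Om p) R - R) * δ) :
    δ ∈ F ∨ (∃ t : Om p, t ^ 3 = -949 ∧ δ * t ∈ F) ∨
      ∃ s t : Om p, s ≠ 0 ∧ δ / s ∈ F ∧ s ^ 3 ∈ F ∧ s * t ∈ F ∧
        s ^ 3 * (s ^ 3 + 2 * (s * t) - 949) = (s * t) ^ 3 := by
  obtain ⟨e1, e2, -, -, -, -⟩ := heta (Om p) w hw2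
  by_cases h3 : (3 : ℕ) • R = 0
  · left
    rw [mem_iff_fixed]
    intro g hg
    obtain ⟨h1, h2⟩ := h g hg
    set T := pm (g : Om p →+* Om p) R - R with hT
    have hgR : pm (g : Om p →+* Om p) R = R + T := by rw [hT]; abel
    have h4 : eta (pm (g : Om p →+* Om p) R) = g (eta R) := eta_pm _ R
    have hw3 : w ^ 3 = 1 := by linear_combination (w - 1) * hw2
    have h5 : eta R ∈ F := by
      have h6 := e1 R h3
      have h7 : (eta R - 1) * ((eta R - w) * (eta R - w ^ 2)) = 0 := by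
        linear_combination h6 + (-(eta R) ^ 2 + w * eta R - (w - 1)) * hw2
      rcases mul_eq_zero.1 h7 with h8 | h8
      · rw [sub_eq_zero.1 h8]; exact F.one_mem
      rcases mul_eq_zero.1 h8 with h8 | h8
      · rw [sub_eq_zero.1 h8]; exact hw
      · rw [sub_eq_zero.1 h8]; exact pow_mem hw 2
    have h6 : eta R ≠ 0 := by
      intro h0
      have := e1 R h3
      rw [h0] at this
      norm_num at this
    have h7 : eta T = 1 := by
      rw [hg _ h5, hgR, e2 R T h3 h1] at h4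
      have : eta R * (eta T - 1) = 0 := by linear_combination h4
      rcases mul_eq_zero.1 this with h8 | h8
      · exact absurd h8 h6
      · exact sub_eq_zero.1 h8
    rw [h2, h7, one_mul]
  · right
    obtain ⟨r1, r2⟩ := htr (Om p) w hw2 R h3
    set s := sf w R with hs
    set t := tf w R with ht
    have key : ∀ g : Gp p, (∀ a ∈ F, g a = a) → ∃ e : Om p, e ^ 3 = 1 ∧ g δ = e * δ ∧
        g s = e * s ∧ g t = e ^ 2 * t := by
      intro g hg
      obtain ⟨h1, h2⟩ := h g hg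
      set T := pm (g : Om p →+* Om p) R - R with hT
      have hgR : pm (g : Om p →+* Om p) R = R + T := by rw [hT]; abel
      obtain ⟨t1, t2⟩ := r2 T h1
      refine ⟨eta T, e1 T h1, h2, ?_, ?_⟩
      · rw [← t1, ← hgR, hs]
        have := sf_pm (g : Om p →+* Om p) w R
        have hgw : (g : Om p →+* Om p) w = w := hg w hw
        rw [hgw] at this
        exact this.symm
      · rw [← t2, ← hgR, ht]
        have := tf_pm (g : Om p →+* Om p) w R
        have hgw : (g : Om p →+* Om p) w = w := hg w hw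
        rw [hgw] at this
        exact this.symm
    by_cases hs0 : s = 0
    · left
      refine ⟨t, ?_, ?_⟩
      · rw [hs0] at r1; linear_combination r1
      · rw [mem_iff_fixed]
        intro g hg
        obtain ⟨e, he, k1, -, k3⟩ := key g hg
        rw [map_mul, k1, k3]
        linear_combination δ * t * he
    · right
      refine ⟨s, t, hs0, ?_, ?_, ?_, ?_⟩
      · rw [mem_iff_fixed]
        intro g hg
        obtain ⟨e, he, k1, k2, -⟩ := key g hg
        have he0 : e ≠ 0 := by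
          rintro rfl; norm_num at he
        rw [map_div₀, k1, k2]
        field_simp
      · rw [mem_iff_fixed]
        intro g hg
        obtain ⟨e, he, -, k2, -⟩ := key g hg
        rw [map_pow, k2]
        linear_combination s ^ 3 * he
      · rw [mem_iff_fixed]
        intro g hg
        obtain ⟨e, he, -, k2, k3⟩ := key g hg
        rw [map_mul, k2, k3]
        linear_combination s * t * he
      · linear_combination (-s ^ 3) * r1

/-- the size of `Y` on the curve `Y (Y + 2 X - 949) = X ^ 3` -/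
lemma size_cases {p : ℕ} [Fact p.Prime] (h949 : ‖(949 : Om p)‖ = 1) (X Y : Om p) (hY : Y ≠ 0)
    (h : Y * (Y + 2 * X - 949) = X ^ 3) :
    (1 < ‖X‖ ∧ ‖X‖ < ‖Y‖ ∧ ‖Y‖ ^ 2 = ‖X‖ ^ 3) ∨ (‖X‖ ≤ 1 ∧ ‖Y‖ = 1) ∨
      (‖X‖ < 1 ∧ ‖Y‖ < 1 ∧ ‖Y‖ = ‖X‖ ^ 3) := by
  have hn : ‖Y‖ * ‖Y + 2 * X - 949‖ = ‖X‖ ^ 3 := by rw [← norm_mul, h, norm_pow]
  have h2X : ‖2 * X‖ ≤ ‖X‖ := by
    rw [norm_mul]
    calc _ ≤ 1 * ‖X‖ := by gcongr; exact norm_two_le
      _ = _ := one_mul _
  have hc : ‖2 * X - 949‖ ≤ max ‖X‖ 1 := by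
    rw [sub_eq_add_neg]
    refine (um _ _).trans ?_
    rw [norm_neg, h949]
    exact max_le_max h2X le_rfl
  have hYp : 0 < ‖Y‖ := norm_pos_iff.2 hY
  rcases lt_or_ge 1 ‖X‖ with hX | hX
  · left
    rw [max_eq_left hX.le] at hc
    have h1 : ‖X‖ < ‖Y‖ := by
      by_contra hcon
      push Not at hcon
      have h3 : ‖Y + 2 * X - 949‖ ≤ ‖X‖ := by
        rw [add_sub_assoc]
        exact (um _ _).trans (max_le hcon hc)
      have h4 : ‖X‖ ^ 3 ≤ ‖X‖ * ‖X‖ := by
        rw [← hn]; gcongr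
      have hXp : 0 < ‖X‖ := by linarith
      nlinarith [mul_pos (mul_pos hXp hXp) (sub_pos.2 hX)]
    refine ⟨hX, h1, ?_⟩
    have h3 : ‖Y + 2 * X - 949‖ = ‖Y‖ := by
      rw [add_sub_assoc]
      exact um_eq' (lt_of_le_of_lt hc h1)
    rw [← hn, h3]; ring
  · right
    rw [max_eq_right hX] at hc
    rcases lt_trichotomy ‖Y‖ 1 with hY1 | hY1 | hY1
    · right
      have h3 : ‖Y + 2 * X - 949‖ ≤ 1 := by
        rw [add_sub_assoc]
        exact (um _ _).trans (max_le hY1.le hc)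
      have hX1 : ‖X‖ < 1 := by
        by_contra hcon
        push Not at hcon
        have : ‖X‖ ^ 3 < 1 := by
          rw [← hn]
          calc _ ≤ ‖Y‖ * 1 := by gcongr
            _ < 1 := by linarith
        have h5 : (1 : ℝ) ≤ ‖X‖ ^ 3 := one_le_pow₀ hcon
        linarith
      refine ⟨hX1, hY1, ?_⟩
      have h4 : ‖Y + 2 * X‖ < 1 := lt_of_le_of_lt (um _ _) (max_lt hY1 (lt_of_le_of_lt h2X hX1))
      have h5 : ‖Y + 2 * X - 949‖ = 1 := by
        rw [sub_eq_add_neg, um_eq (by rw [norm_neg, h949]; exact h4), norm_neg, h949]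
      rw [← hn, h5, mul_one]
    · left; exact ⟨hX, hY1⟩
    · exfalso
      have h3 : ‖Y + 2 * X - 949‖ = ‖Y‖ := by
        rw [add_sub_assoc]
        exact um_eq' (lt_of_le_of_lt hc hY1)
      rw [h3] at hn
      have : ‖X‖ ^ 3 ≤ 1 := pow_le_one₀ (norm_nonneg _) hX
      nlinarith

/-- **L5** -/
theorem i1 (heta : EtaStmt) (htr : TransStmt) : I1Stmt := by
  intro p _ h949 F w hw hw2 δ R hδ h
  rcases kummer_core heta htr F w hw hw2 δ R h with h1 | ⟨t, ht, h1⟩ | ⟨s, t, hs, h1, h2, h3, h4⟩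
  · exact ⟨δ, h1, hδ, rfl⟩
  · have ht1 : ‖t‖ = 1 := by
      have : ‖t‖ ^ 3 = 1 := by rw [← norm_pow, ht, norm_neg, h949]
      exact (pow_eq_one_iff_of_nonneg (norm_nonneg _) (by norm_num)).1 this
    refine ⟨δ * t, h1, mul_ne_zero hδ ?_, ?_⟩
    · rintro rfl; simp at ht1
    · rw [norm_mul, ht1, mul_one]
  · have hY : s ^ 3 ≠ 0 := pow_ne_zero _ hs
    have hu : δ / s ≠ 0 := div_ne_zero hδ hs
    obtain ⟨v, hv, hv0, hvn⟩ : ∃ v ∈ F, v ≠ 0 ∧ ‖s‖ = ‖v‖ := by
      rcases size_cases h949 (s * t) (s ^ 3) hY h4 with ⟨a1, a2, a3⟩ | ⟨a1, a2⟩ | ⟨a1, a2, a3⟩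
      · refine ⟨s ^ 3 / (s * t), div_mem h2 h3, div_ne_zero hY ?_, ?_⟩
        · intro h0; rw [h0] at a1; simp at a1; linarith
        · have hXp : 0 < ‖s * t‖ := by linarith
          have hsp : 0 < ‖s‖ := norm_pos_iff.2 hs
          have : ‖s‖ ^ 3 = ‖s ^ 3 / (s * t)‖ ^ 3 := by
            rw [norm_div, div_pow, ← a3]
            rw [norm_pow]
            field_simp
          exact (pow_left_inj₀ (norm_nonneg _) (norm_nonneg _) (by norm_num)).1 this
      · refine ⟨1, F.one_mem, one_ne_zero, ?_⟩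
        rw [norm_one]
        rw [norm_pow] at a2
        exact (pow_eq_one_iff_of_nonneg (norm_nonneg _) (by norm_num)).1 a2
      · refine ⟨s * t, h3, ?_, ?_⟩
        · intro h0
          rw [h0, norm_zero] at a3
          have : ‖s ^ 3‖ = 0 := by rw [a3]; norm_num
          exact hY (norm_eq_zero.1 this)
        · rw [norm_pow] at a3
          exact (pow_left_inj₀ (norm_nonneg _) (norm_nonneg _) (by norm_num)).1 a3
    refine ⟨δ / s * v, mul_mem h1 hv, mul_ne_zero hu hv0, ?_⟩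
    rw [norm_mul, norm_div, ← hvn]
    have : ‖s‖ ≠ 0 := norm_ne_zero_iff.2 hs
    field_simp

/-! ## L6 -/

/-- elements near a nonzero cube are cubes -/
lemma cube_near (hcn : CubeNearStmt) {p : ℕ} [Fact p.Prime] (hp : p ≠ 3)
    (F : IntermediateField ℚ_[p] (Om p)) {y a : Om p} (hy : y ∈ F) (ha : a ∈ F) (ha0 : a ≠ 0)
    (h : ‖y - a ^ 3‖ < ‖a‖ ^ 3) : ∃ z ∈ F, z ^ 3 = y := by
  have ha3 : a ^ 3 ≠ 0 := pow_ne_zero _ ha0
  obtain ⟨z, hz, hz3⟩ := hcn p hp F (y / a ^ 3) (div_mem hy (pow_mem ha 3)) (by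
    have : y / a ^ 3 - 1 = (y - a ^ 3) / a ^ 3 := by field_simp
    rw [this, norm_div, norm_pow, div_lt_one (by positivity)]
    exact h)
  refine ⟨z * a, mul_mem hz ha, ?_⟩
  rw [mul_pow, hz3]
  field_simp

/-- a cube root of an element which is a cube in `F` is in `F` -/
lemma mem_of_cube {p : ℕ} [Fact p.Prime] (F : IntermediateField ℚ_[p] (Om p)) {w : Om p}
    (hw : w ∈ F) (hw2 : w ^ 2 + w + 1 = 0) {s z : Om p} (hz : z ∈ F) (h : z ^ 3 = s ^ 3) :
    s ∈ F := by
  have h7 : (s - z) * ((s - w * z) * (s - w ^ 2 * z)) = 0 := by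
    linear_combination -h + (-z * s ^ 2 + w * z ^ 2 * s - (w - 1) * z ^ 3) * hw2
  rcases mul_eq_zero.1 h7 with h8 | h8
  · rw [sub_eq_zero.1 h8]; exact hz
  rcases mul_eq_zero.1 h8 with h8 | h8
  · rw [sub_eq_zero.1 h8]; exact mul_mem hw hz
  · rw [sub_eq_zero.1 h8]; exact mul_mem (pow_mem hw 2) hz

section nineteen

variable [Fact (Nat.Prime 19)]

lemma n_int_one (n : ℤ) (h : ¬ (19 : ℤ) ∣ n) : ‖(n : Om 19)‖ = 1 := by
  rw [norm_int_eq]
  have h1 := Padic.norm_intCast_lt_one_iff (p := 19) (k := n)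
  have h2 := Padic.norm_int_le_one (p := 19) n
  rcases lt_or_eq_of_le h2 with h3 | h3
  · exact absurd (h1.1 h3) h
  · exact h3

lemma n_int_lt (n : ℤ) (h : (19 : ℤ) ∣ n) : ‖(n : Om 19)‖ < 1 := by
  rw [norm_int_eq]
  exact (Padic.norm_intCast_lt_one_iff (p := 19) (k := n)).2 h

lemma n2 : ‖(2 : Om 19)‖ = 1 := by
  have := n_int_one 2 (by norm_num); simpa using this
lemma n3 : ‖(3 : Om 19)‖ = 1 := by
  have := n_int_one 3 (by norm_num); simpa using this
lemma n949 : ‖(949 : Om 19)‖ = 1 := by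
  have := n_int_one 949 (by norm_num); simpa using this
lemma n25631 : ‖(25631 : Om 19)‖ < 1 := by
  have := n_int_lt 25631 (by norm_num); simpa using this

/-- on the curve, `Y` is a cube in `F` -/
lemma cube_Y (hcn : CubeNearStmt) (F : IntermediateField ℚ_[19] (Om 19)) {X Y : Om 19}
    (hX : X ∈ F) (hYF : Y ∈ F) (hY : Y ≠ 0) (h : Y * (Y + 2 * X - 949) = X ^ 3) :
    ∃ z ∈ F, z ^ 3 = Y := by
  have hs0 : (2 / 3 : Om 19) ∈ F := div_mem (by exact_mod_cast natCast_mem F 2)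
    (by exact_mod_cast natCast_mem F 3)
  have h949 : (949 : Om 19) ∈ F := by exact_mod_cast natCast_mem F 949
  have h2 : (2 : Om 19) ∈ F := by exact_mod_cast natCast_mem F 2
  have h3ne : (3 : Om 19) ≠ 0 := by
    intro h0; have := n3; rw [h0, norm_zero] at this; norm_num at this
  have hs0n : ‖(2 / 3 : Om 19)‖ = 1 := by rw [norm_div, n2, n3]; norm_num
  have hs0ne : (2 / 3 : Om 19) ≠ 0 := by
    intro h0; rw [h0, norm_zero] at hs0n; norm_num at hs0n
  have hen : ‖(-25631 / 27 : Om 19)‖ < 1 := by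
    have : (27 : Om 19) = 3 ^ 3 := by norm_num
    rw [norm_div, norm_neg, this, norm_pow, n3]
    simpa using n25631
  rcases size_cases n949 X Y hY h with ⟨a1, a2, a3⟩ | ⟨a1, a2⟩ | ⟨a1, a2, a3⟩
  · -- `X ^ 3 / Y ^ 2` is near `1`
    have hX0 : X ≠ 0 := by rintro rfl; simp at a1; linarith
    have hXp : 0 < ‖X‖ := by linarith
    refine cube_near hcn (by norm_num) F hYF (a := Y / X) (div_mem hYF hX) (div_ne_zero hY hX0) ?_
    have e1 : Y - (Y / X) ^ 3 = Y * (2 * X - 949) * Y / X ^ 3 := by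
      rw [div_pow, eq_div_iff (pow_ne_zero _ hX0), sub_mul, div_mul_cancel₀ _ (pow_ne_zero _ hX0),
        ← h]
      ring
    rw [e1, norm_div, norm_mul, norm_mul, norm_div, div_pow, norm_pow]
    have e2 : ‖2 * X - 949‖ < ‖Y‖ := by
      rw [sub_eq_add_neg]
      refine lt_of_le_of_lt (um _ _) (max_lt ?_ ?_)
      · rw [norm_mul, n2, one_mul]; exact a2
      · rw [norm_neg, n949]; linarith
    have hYp : 0 < ‖Y‖ := by linarith
    gcongr
    calc _ < ‖Y‖ * ‖Y‖ * ‖Y‖ := by gcongr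
      _ = _ := by ring
  · -- the nodal case
    by_cases hZ : ‖X + (2 / 3) ^ 2‖ < 1
    · refine cube_near hcn (by norm_num) F hYF (a := 2 / 3) hs0 hs0ne ?_
      rw [hs0n, one_pow]
      have e1 : (Y - (2 / 3) ^ 3) ^ 2 = (X + (2 / 3) ^ 2) * (X ^ 2 - X * (2 / 3) ^ 2 + (2 / 3) ^ 4
          - 2 * Y) + (25631 / 27) * Y := by
        linear_combination h
      have hX2 : ‖X ^ 2 - X * (2 / 3) ^ 2 + (2 / 3) ^ 4 - 2 * Y‖ ≤ 1 := by
        have b1 : ‖X ^ 2‖ ≤ 1 := by rw [norm_pow]; exact pow_le_one₀ (norm_nonneg _) a1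
        have b2 : ‖-(X * (2 / 3) ^ 2)‖ ≤ 1 := by
          rw [norm_neg, norm_mul, norm_pow, hs0n]; simpa using a1
        have b3 : ‖((2 / 3) ^ 4 : Om 19)‖ ≤ 1 := by rw [norm_pow, hs0n]; norm_num
        have b4 : ‖-(2 * Y)‖ ≤ 1 := by rw [norm_neg, norm_mul, n2, a2]; norm_num
        rw [sub_eq_add_neg, sub_eq_add_neg]
        exact (um _ _).trans (max_le ((um _ _).trans (max_le ((um _ _).trans (max_le b1 b2)) b3)) b4)
      have e2 : ‖Y - (2 / 3) ^ 3‖ ^ 2 < 1 := by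
        rw [← norm_pow, e1]
        refine lt_of_le_of_lt (um _ _) (max_lt ?_ ?_)
        · rw [norm_mul]
          calc _ ≤ ‖X + (2 / 3) ^ 2‖ * 1 := by gcongr
            _ < 1 := by linarith
        · rw [norm_mul, a2, mul_one]
          rw [neg_div, norm_neg] at hen
          exact hen
      by_contra hcon
      push Not at hcon
      have : 1 ≤ ‖Y - (2 / 3) ^ 3‖ ^ 2 := one_le_pow₀ hcon
      linarith
    · push Not at hZ
      have hZ1 : ‖X + (2 / 3) ^ 2‖ = 1 := by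
        refine le_antisymm ((um _ _).trans (max_le a1 ?_)) hZ
        rw [norm_pow, hs0n]; norm_num
      set Z := X + (2 / 3) ^ 2 with hZd
      have hZ0 : Z ≠ 0 := by intro h0; rw [h0, norm_zero] at hZ1; norm_num at hZ1
      have hZF : Z ∈ F := add_mem hX (pow_mem hs0 2)
      set m := (Y - (2 / 3) ^ 3) / Z with hm
      have hmF : m ∈ F := div_mem (sub_mem hYF (pow_mem hs0 3)) hZF
      have hmZ : m * Z = Y - (2 / 3) ^ 3 := by rw [hm, div_mul_cancel₀ _ hZ0]
      have hm1 : ‖m‖ ≤ 1 := by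
        rw [hm, norm_div, hZ1, div_one, sub_eq_add_neg]
        refine (um _ _).trans (max_le a2.le ?_)
        rw [norm_neg, norm_pow, hs0n]; norm_num
      have e1 : Z ^ 2 * (m ^ 2 + 2 * m + 3 * (2 / 3) ^ 2 - Z) = (25631 / 27) * Y := by
        have : Z ^ 2 * (m ^ 2 + 2 * m + 3 * (2 / 3) ^ 2 - Z) =
            (m * Z) ^ 2 + 2 * (m * Z) * Z + 3 * (2 / 3) ^ 2 * Z ^ 2 - Z ^ 3 := by ring
        rw [this, hmZ, hZd]
        linear_combination h
      have e2 : ‖m ^ 2 + 2 * m + 3 * (2 / 3) ^ 2 - Z‖ < 1 := by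
        have := congrArg norm e1
        rw [norm_mul, norm_mul, norm_pow, hZ1, a2] at this
        rw [one_pow, one_mul, mul_one] at this
        rw [this]
        rw [neg_div, norm_neg] at hen
        exact hen
      have e3 : Y - (m + 2 / 3) ^ 3 = -(m * (m ^ 2 + 2 * m + 3 * (2 / 3) ^ 2 - Z)) := by
        linear_combination -hmZ
      have e4 : ‖Y - (m + 2 / 3) ^ 3‖ < 1 := by
        rw [e3, norm_neg, norm_mul]
        calc _ ≤ 1 * ‖m ^ 2 + 2 * m + 3 * (2 / 3) ^ 2 - Z‖ := by gcongr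
          _ < 1 := by linarith
      have e5 : ‖m + 2 / 3‖ = 1 := by
        have h1 : ‖(m + 2 / 3) ^ 3‖ = 1 := by
          have : (m + 2 / 3) ^ 3 = -(Y - (m + 2 / 3) ^ 3) + Y := by ring
          rw [this, um_eq, a2]
          rw [norm_neg, a2]; exact e4
        rw [norm_pow] at h1
        exact (pow_eq_one_iff_of_nonneg (norm_nonneg _) (by norm_num)).1 h1
      refine cube_near hcn (by norm_num) F hYF (a := m + 2 / 3) (add_mem hmF hs0) ?_ ?_
      · intro h0; rw [h0, norm_zero] at e5; norm_num at e5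
      · rw [e5, one_pow]; exact e4
  · -- `Y + 2 X - 949` is near a cube
    obtain ⟨z, hz, hz3⟩ := cube_near hcn (by norm_num) F (y := Y + 2 * X - 949) (a := 2 / 3)
      (sub_mem (add_mem hYF (mul_mem h2 hX)) h949) hs0 hs0ne (by
        rw [hs0n, one_pow]
        have : Y + 2 * X - 949 - (2 / 3) ^ 3 = Y + 2 * X + (-25631 / 27) := by ring
        rw [this]
        refine lt_of_le_of_lt (um _ _) (max_lt (lt_of_le_of_lt (um _ _) (max_lt a2 ?_)) hen)
        rw [norm_mul, n2, one_mul]; exact a1)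
    have hz0 : z ≠ 0 := by
      rintro rfl
      have : Y + 2 * X - 949 = 0 := by rw [← hz3]; norm_num
      rw [this, mul_zero] at h
      have hX0 : X = 0 := by
        have := h.symm
        simpa using this
      have : ‖Y‖ = 0 := by rw [a3, hX0]; norm_num
      exact hY (norm_eq_zero.1 this)
    refine ⟨X / z, div_mem hX hz, ?_⟩
    rw [div_pow, hz3, ← h]
    have : Y + 2 * X - 949 ≠ 0 := by rw [← hz3]; exact pow_ne_zero _ hz0
    field_simp

end nineteen

/-- **L6** -/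
theorem i19 (hcn : CubeNearStmt) (heta : EtaStmt) (htr : TransStmt) : I19Stmt := by
  intro _ F w hw hw2 δ R hδ h
  rcases kummer_core heta htr F w hw hw2 δ R h with h1 | ⟨t, ht, h1⟩ | ⟨s, t, hs, h1, h2, h3, h4⟩
  · exact h1
  · have hs0 : (2 / 3 : Om 19) ∈ F := div_mem (by exact_mod_cast natCast_mem F 2)
      (by exact_mod_cast natCast_mem F 3)
    have h949 : (-949 : Om 19) ∈ F := neg_mem (by exact_mod_cast natCast_mem F 949)
    have hs0n : ‖(2 / 3 : Om 19)‖ = 1 := by rw [norm_div, n2, n3]; norm_num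
    have hs0ne : (2 / 3 : Om 19) ≠ 0 := by
      intro h0; rw [h0, norm_zero] at hs0n; norm_num at hs0n
    have hen : ‖(-25631 / 27 : Om 19)‖ < 1 := by
      have : (27 : Om 19) = 3 ^ 3 := by norm_num
      rw [norm_div, norm_neg, this, norm_pow, n3]
      simpa using n25631
    obtain ⟨z, hz, hz3⟩ := cube_near hcn (by norm_num) F (y := -949) (a := 2 / 3) h949 hs0 hs0ne
      (by
        rw [hs0n, one_pow]
        have : (-949 : Om 19) - (2 / 3) ^ 3 = (-25631 / 27) := by norm_num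
        rw [this]; exact hen)
    have htF : t ∈ F := mem_of_cube F hw hw2 hz (by rw [hz3, ht])
    have ht0 : t ≠ 0 := by
      rintro rfl; norm_num at ht
    have : δ = δ * t / t := by field_simp
    rw [this]
    exact div_mem h1 htF
  · obtain ⟨z, hz, hz3⟩ := cube_Y hcn F h3 h2 (pow_ne_zero _ hs) h4
    have hsF : s ∈ F := mem_of_cube F hw hw2 hz hz3
    have : δ = δ / s * s := by field_simp
    rw [this]
    exact mul_mem h1 hsF

end Pool.Agent.H60.F8
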